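import Mathlib
import Pool.Agent.TH352.AGSpace

/-!
For every `0 < p < 1`: a Markushevich basis of a non-normable `p`-Banach space (over `ℝ` and over
`ℂ`) that is 1-almost-greedy but not 1-semi-greedy.
-/

open scoped BigOperators

namespace Pool.Agent.Results.MP_b7f2f1_an.QuasiBanachCase

section Defs

variable {𝕜 X : Type} [RCLike 𝕜] [AddCommGroup X] [Module 𝕜 X]

/-- `(X, q)` is a `p`-Banach space: `q` is a quasi-norm with
`q (x + y) ^ p ≤ q x ^ p + q y ^ p`, and `X` is complete for `q`. -/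
structure IsPBanach (𝕜 : Type) {X : Type} [RCLike 𝕜] [AddCommGroup X] [Module 𝕜 X]
    (p : ℝ) (q : X → ℝ) : Prop where
  nonneg : ∀ x, 0 ≤ q x
  eq_zero_iff : ∀ x, q x = 0 ↔ x = 0
  smul : ∀ (a : 𝕜) (x : X), q (a • x) = ‖a‖ * q x
  p_triangle : ∀ x y, q (x + y) ^ p ≤ q x ^ p + q y ^ p
  complete : ∀ u : ℕ → X, (∀ ε > 0, ∃ N, ∀ m ≥ N, ∀ n ≥ N, q (u m - u n) < ε) →
    ∃ x, ∀ ε > 0, ∃ N, ∀ n ≥ N, q (u n - x) < ε

/-- The quasi-norm `q` is equivalent to a norm. -/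
def IsNormable (𝕜 : Type) {X : Type} [RCLike 𝕜] [AddCommGroup X] [Module 𝕜 X]
    (q : X → ℝ) : Prop :=
  ∃ (N : Seminorm 𝕜 X) (K L : ℝ), ∀ x, q x ≤ K * N x ∧ N x ≤ L * q x

/-- `b` is a Markushevich basis of `(X, q)` with (bounded) biorthogonal functionals `c`. -/
structure IsMarkushevich (q : X → ℝ) (b : ℕ → X) (c : ℕ → X →ₗ[𝕜] 𝕜) : Prop where
  bounded : ∀ n, ∃ K, ∀ x, ‖c n x‖ ≤ K * q x
  biorthogonal : ∀ k n, c k (b n) = if k = n then 1 else 0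
  dense_span : ∀ (x : X) (ε : ℝ), 0 < ε → ∃ y ∈ Submodule.span 𝕜 (Set.range b), q (x - y) < ε
  total : ∀ x : X, (∀ n, c n x = 0) → x = 0

/-- The coordinate projection `P_A x = ∑_{n ∈ A} x_n^*(x) x_n`. -/
def P (b : ℕ → X) (c : ℕ → X →ₗ[𝕜] 𝕜) (A : Finset ℕ) (x : X) : X :=
  ∑ n ∈ A, c n x • b n

/-- `A` is a greedy set of `x`. -/
def IsGreedySet (c : ℕ → X →ₗ[𝕜] 𝕜) (x : X) (A : Finset ℕ) : Prop :=
  ∀ n ∈ A, ∀ k, k ∉ A → ‖c k x‖ ≤ ‖c n x‖

/-- `σ_m(x)`: the error of the best approximation by a linear combination of at most `m`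
basis vectors. -/
noncomputable def sigma (𝕜 : Type) {X : Type} [RCLike 𝕜] [AddCommGroup X] [Module 𝕜 X]
    (q : X → ℝ) (b : ℕ → X) (m : ℕ) (x : X) : ℝ :=
  sInf {r : ℝ | ∃ (B : Finset ℕ) (a : ℕ → 𝕜), B.card ≤ m ∧ r = q (x - ∑ n ∈ B, a n • b n)}

/-- `σ̃_m(x)`: the error of the best approximation by coordinate projections. -/
noncomputable def sigmaTilde (q : X → ℝ) (b : ℕ → X) (c : ℕ → X →ₗ[𝕜] 𝕜) (m : ℕ) (x : X) : ℝ :=
  sInf {r : ℝ | ∃ B : Finset ℕ, B.card ≤ m ∧ r = q (x - P b c B x)}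

/-- The basis is `C`-almost-greedy. -/
def AlmostGreedy (C : ℝ) (q : X → ℝ) (b : ℕ → X) (c : ℕ → X →ₗ[𝕜] 𝕜) : Prop :=
  ∀ (x : X) (A : Finset ℕ), IsGreedySet c x A → q (x - P b c A x) ≤ C * sigmaTilde q b c A.card x

/-- The basis is `C`-semi-greedy. -/
def SemiGreedy (C : ℝ) (q : X → ℝ) (b : ℕ → X) (c : ℕ → X →ₗ[𝕜] 𝕜) : Prop :=
  ∀ (x : X) (A : Finset ℕ), IsGreedySet c x A →
    sInf {r : ℝ | ∃ a : ℕ → 𝕜, r = q (x - ∑ n ∈ A, a n • b n)} ≤ C * sigma 𝕜 q b A.card x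

end Defs

open Pool.Agent.TH352.AG

/-- The quasi-norm `G ^ (1/p)` on p-summable sequences. -/
private noncomputable def qn (𝕜 : Type) [RCLike 𝕜] (p : ℝ) (hp : 0 < p) (hp1 : p ≤ 1)
    (x : seqSub 𝕜 p hp hp1) : ℝ := G p (x : ℕ → 𝕜) ^ (1 / p)

private lemma qn_lt {𝕜 : Type} [RCLike 𝕜] {p : ℝ} {hp : 0 < p} {hp1 : p ≤ 1} {ε : ℝ} (hε : 0 < ε)
    (x : seqSub 𝕜 p hp hp1) : qn 𝕜 p hp hp1 x < ε ↔ G p (x : ℕ → 𝕜) < ε ^ p := by
  unfold qn
  have h := Real.rpow_lt_rpow_iff (z := p) (Real.rpow_nonneg (G_nonneg (p := p) (x : ℕ → 𝕜)) (1 / p))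
    hε.le hp
  rw [← h, ← Real.rpow_mul (G_nonneg _), one_div, inv_mul_cancel₀ hp.ne', Real.rpow_one]

private lemma qn_mono {𝕜 : Type} [RCLike 𝕜] {p : ℝ} {hp : 0 < p} {hp1 : p ≤ 1}
    {x y : seqSub 𝕜 p hp hp1} (h : G p (x : ℕ → 𝕜) ≤ G p (y : ℕ → 𝕜)) :
    qn 𝕜 p hp hp1 x ≤ qn 𝕜 p hp hp1 y :=
  Real.rpow_le_rpow (G_nonneg _) h (by positivity)

private lemma qn_pow {𝕜 : Type} [RCLike 𝕜] {p : ℝ} {hp : 0 < p} {hp1 : p ≤ 1}
    (x : seqSub 𝕜 p hp hp1) : qn 𝕜 p hp hp1 x ^ p = G p (x : ℕ → 𝕜) := by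
  unfold qn
  rw [← Real.rpow_mul (G_nonneg _), one_div, inv_mul_cancel₀ hp.ne', Real.rpow_one]

private lemma qn_nonneg {𝕜 : Type} [RCLike 𝕜] {p : ℝ} {hp : 0 < p} {hp1 : p ≤ 1}
    (x : seqSub 𝕜 p hp hp1) : 0 ≤ qn 𝕜 p hp hp1 x := Real.rpow_nonneg (G_nonneg _) _

/-- The coordinate functional. -/
private def co (𝕜 : Type) [RCLike 𝕜] (p : ℝ) (hp : 0 < p) (hp1 : p ≤ 1) (n : ℕ) :
    seqSub 𝕜 p hp hp1 →ₗ[𝕜] 𝕜 where
  toFun x := (x : ℕ → 𝕜) n
  map_add' _ _ := rfl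
  map_smul' _ _ := rfl

private lemma isPBanach {𝕜 : Type} [RCLike 𝕜] {p : ℝ} {hp : 0 < p} {hp1 : p ≤ 1} :
    IsPBanach 𝕜 p (qn 𝕜 p hp hp1) where
  nonneg := qn_nonneg
  eq_zero_iff x := by
    constructor
    · intro h
      have h1 : G p (x : ℕ → 𝕜) = 0 := by
        rw [← qn_pow, h, Real.zero_rpow hp.ne']
      exact Subtype.ext (eq_zero_of_G hp x.2 h1)
    · rintro rfl
      unfold qn
      rw [Submodule.coe_zero, G_zero hp hp1, Real.zero_rpow (by positivity)]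
  smul a x := by
    unfold qn
    rw [Submodule.coe_smul, G_smul, Real.mul_rpow (v_nonneg a) (G_nonneg _)]
    unfold v
    rw [← Real.rpow_mul (norm_nonneg a), mul_one_div_cancel hp.ne', Real.rpow_one]
  p_triangle x y := by
    rw [qn_pow, qn_pow, qn_pow, Submodule.coe_add]
    exact G_add hp hp1 x.2 y.2
  complete u hu := by
    obtain ⟨x, hx, h⟩ := complete_G (𝕜 := 𝕜) hp hp1 (fun n => ((u n : seqSub 𝕜 p hp hp1) : ℕ → 𝕜))
      (fun n => (u n).2) (fun ε hε => by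
        obtain ⟨N, hN⟩ := hu (ε ^ (1 / p)) (Real.rpow_pos_of_pos hε _)
        refine ⟨N, fun m hm n hn => ?_⟩
        have h1 := (qn_lt (Real.rpow_pos_of_pos hε (1 / p)) _).1 (hN m hm n hn)
        rw [← Real.rpow_mul hε.le, one_div, inv_mul_cancel₀ hp.ne', Real.rpow_one] at h1
        exact h1)
    refine ⟨⟨x, hx⟩, fun ε hε => ?_⟩
    obtain ⟨N, hN⟩ := h (ε ^ p) (Real.rpow_pos_of_pos hε _)
    refine ⟨N, fun n hn => ?_⟩
    rw [qn_lt hε]
    exact hN n hn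

private lemma G_unit_le {𝕜 : Type} [RCLike 𝕜] {p : ℝ} {hp : 0 < p} {hp1 : p ≤ 1} (n : ℕ) :
    G p ((unit p hp hp1 n : seqSub 𝕜 p hp hp1) : ℕ → 𝕜) ≤ 2 := by
  refine (G_le_T hp hp1 (unit p hp hp1 n).2).trans ?_
  have : T p ((unit p hp hp1 n : seqSub 𝕜 p hp hp1) : ℕ → 𝕜) = 1 := by
    unfold T
    rw [tsum_eq_single n]
    · simp [unit, v]
    · intro i hi
      have : ((unit p hp hp1 n : seqSub 𝕜 p hp hp1) : ℕ → 𝕜) i = 0 :=
        Pi.single_eq_of_ne hi 1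
      rw [this, v_zero hp]
  rw [this]; norm_num

private lemma not_normable {𝕜 : Type} [RCLike 𝕜] {p : ℝ} {hp : 0 < p} {hp1 : p ≤ 1}
    (hlt : p < 1) : ¬ IsNormable 𝕜 (qn 𝕜 p hp hp1) := by
  rintro ⟨N, K, L, h⟩
  -- bound for the norm of the unit vectors
  have hq : ∀ n, qn 𝕜 p hp hp1 (unit p hp hp1 n) ≤ (2 : ℝ) ^ (1 / p) := fun n =>
    Real.rpow_le_rpow (G_nonneg _) (G_unit_le n) (by positivity)
  set D : ℝ := |L| * (2 : ℝ) ^ (1 / p) with hD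
  have hN : ∀ n, N (unit p hp hp1 n) ≤ D := fun n => by
    refine (h _).2.trans ?_
    refine (mul_le_mul_of_nonneg_right (le_abs_self L) (qn_nonneg _)).trans ?_
    exact mul_le_mul_of_nonneg_left (hq n) (abs_nonneg L)
  have hsum : ∀ n : ℕ, (n : ℝ) ^ (1 / p) ≤ (|K| * D) * n := by
    intro n
    set x : seqSub 𝕜 p hp hp1 := ∑ i ∈ Finset.range n, (1 : 𝕜) • unit p hp hp1 i with hx
    have h1 : N x ≤ n * D := by
      have h2 : N x ≤ ∑ i ∈ Finset.range n, N ((1 : 𝕜) • unit p hp hp1 i) := by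
        rw [hx]
        exact Finset.le_sum_of_subadditive N (map_zero N).le (map_add_le_add N) _ _
      refine h2.trans ?_
      have h3 : ∑ i ∈ Finset.range n, N ((1 : 𝕜) • unit p hp hp1 i) ≤
          (Finset.range n).card • D :=
        Finset.sum_le_card_nsmul _ _ _ fun i _ => by rw [one_smul]; exact hN i
      rw [Finset.card_range, nsmul_eq_mul] at h3
      exact h3
    have h4 : (n : ℝ) ≤ G p (x : ℕ → 𝕜) := by
      refine le_trans ?_ (T_le_G _)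
      have h5 : (x : ℕ → 𝕜) = fun i => if i ∈ Finset.range n then 1 else 0 := by
        rw [hx]
        exact coe_sum_unit (Finset.range n) (fun _ => (1 : 𝕜))
      have h6 : ∑ i ∈ Finset.range n, v p ((x : ℕ → 𝕜) i) ≤ T p (x : ℕ → 𝕜) :=
        x.2.sum_le_tsum _ fun _ _ => v_nonneg _
      refine le_trans (le_of_eq ?_) h6
      rw [Finset.sum_congr rfl (g := fun _ => (1 : ℝ)) fun i hi => by
        rw [h5]; simp only [hi, if_true]; exact v_one p]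
      simp
    have h7 : (n : ℝ) ^ (1 / p) ≤ qn 𝕜 p hp hp1 x :=
      Real.rpow_le_rpow (Nat.cast_nonneg n) h4 (by positivity)
    calc (n : ℝ) ^ (1 / p) ≤ qn 𝕜 p hp hp1 x := h7
      _ ≤ K * N x := (h x).1
      _ ≤ |K| * N x := mul_le_mul_of_nonneg_right (le_abs_self K) (apply_nonneg N x)
      _ ≤ |K| * (n * D) := mul_le_mul_of_nonneg_left h1 (abs_nonneg K)
      _ = (|K| * D) * n := by ring
  -- contradiction as `n ^ (1/p - 1)` is unbounded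
  have hpos : 0 < 1 / p - 1 := by
    rw [sub_pos, lt_div_iff₀ hp]; linarith
  have htop := (tendsto_rpow_atTop hpos).comp tendsto_natCast_atTop_atTop
  obtain ⟨n, hn1, hn2⟩ := ((htop.eventually_gt_atTop (|K| * D)).and
    (Filter.eventually_gt_atTop 0)).exists
  have hnpos : (0 : ℝ) < n := by exact_mod_cast hn2
  have h8 : (n : ℝ) ^ (1 / p) = (n : ℝ) ^ (1 / p - 1) * n := by
    rw [← Real.rpow_add_one hnpos.ne']
    ring_nf
  have h9 := hsum n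
  rw [h8] at h9
  have h10 : (n : ℝ) ^ (1 / p - 1) ≤ |K| * D := le_of_mul_le_mul_right h9 hnpos
  exact absurd h10 (not_le.2 hn1)

/-- For every `0 < p < 1` and over `𝕜 = ℝ` and `𝕜 = ℂ` (any `RCLike` field) there is a
Markushevich basis of a non-normable `p`-Banach space that is 1-almost-greedy but not
1-semi-greedy. -/
theorem result (𝕜 : Type) [RCLike 𝕜] (p : ℝ) (hp : 0 < p) (hp1 : p < 1) :
    ∃ (X : Type) (_ : AddCommGroup X) (_ : Module 𝕜 X) (q : X → ℝ)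
      (b : ℕ → X) (c : ℕ → X →ₗ[𝕜] 𝕜),
      IsPBanach 𝕜 p q ∧ ¬ IsNormable 𝕜 q ∧ IsMarkushevich q b c ∧
        AlmostGreedy 1 q b c ∧ ¬ SemiGreedy 1 q b c := by
  refine ⟨seqSub 𝕜 p hp hp1.le, inferInstance, inferInstance, qn 𝕜 p hp hp1.le,
    unit p hp hp1.le, co 𝕜 p hp hp1.le, isPBanach, not_normable hp1, ?_, ?_, ?_⟩
  · refine ⟨?_, ?_, ?_, ?_⟩
    · intro n
      refine ⟨1, fun x => ?_⟩
      rw [one_mul]
      have h1 : v p ((x : ℕ → 𝕜) n) ≤ G p (x : ℕ → 𝕜) := (le_T x.2 n).trans (T_le_G _)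
      have h2 : (v p ((x : ℕ → 𝕜) n)) ^ (1 / p) = ‖(x : ℕ → 𝕜) n‖ := by
        unfold v
        rw [← Real.rpow_mul (norm_nonneg _), mul_one_div_cancel hp.ne', Real.rpow_one]
      change ‖(x : ℕ → 𝕜) n‖ ≤ _
      rw [← h2]
      exact Real.rpow_le_rpow (v_nonneg _) h1 (by positivity)
    · intro k n
      change (Pi.single n (1 : 𝕜) : ℕ → 𝕜) k = _
      by_cases h : k = n
      · subst h; simp
      · rw [if_neg h]; exact Pi.single_eq_of_ne h 1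
    · intro x ε hε
      obtain ⟨n, hn⟩ := exists_G_off_lt hp hp1.le x.2 (Real.rpow_pos_of_pos hε p)
      refine ⟨∑ i ∈ Finset.range n, (x : ℕ → 𝕜) i • unit p hp hp1.le i, ?_, ?_⟩
      · exact Submodule.sum_mem _ fun i _ => Submodule.smul_mem _ _
          (Submodule.subset_span ⟨i, rfl⟩)
      · rw [qn_lt hε, coe_sub_sum]
        exact hn
    · intro x hx
      exact Subtype.ext (funext fun n => hx n)
  · intro x A hA
    rw [one_mul]
    apply le_csInf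
    · exact ⟨_, ∅, Nat.zero_le _, rfl⟩
    · rintro r ⟨B, hB, rfl⟩
      exact qn_mono (G_greedy' x A B hA hB)
  · intro hs
    -- `β` with `β ^ p = 1/4`
    set t : ℝ := (1 / 4 : ℝ) ^ (1 / p) with ht
    have ht0 : 0 ≤ t := Real.rpow_nonneg (by norm_num) _
    have htp : t ^ p = 1 / 4 := by
      rw [ht, ← Real.rpow_mul (by norm_num), one_div p, inv_mul_cancel₀ hp.ne', Real.rpow_one]
    have ht1 : t ≤ 1 := Real.rpow_le_one (by norm_num) (by norm_num) (by positivity)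
    have hnorm : ‖((t : ℝ) : 𝕜)‖ = t := by
      rw [RCLike.norm_ofReal, abs_of_nonneg ht0]
    have hβ1 : v p ((t : ℝ) : 𝕜) = 1 / 4 := by
      unfold v
      rw [hnorm, htp]
    have h := hs (tvs p hp hp1.le ((t : ℝ) : 𝕜)) {2} 
      (greedy_tv (hp := hp) (hp1 := hp1.le) _ (by rw [hnorm]; exact ht1))
    rw [one_mul] at h
    have h1 : (2 + 1 / 4 : ℝ) ^ (1 / p) ≤ sInf {r : ℝ | ∃ a : ℕ → 𝕜,
        r = qn 𝕜 p hp hp1.le (tvs p hp hp1.le ((t : ℝ) : 𝕜) -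
          ∑ n ∈ ({2} : Finset ℕ), a n • unit p hp hp1.le n)} := by
      apply le_csInf
      · exact ⟨_, fun _ => 0, rfl⟩
      · rintro r ⟨a, rfl⟩
        have h2 := lower (hp := hp) (hp1 := hp1.le) ((t : ℝ) : 𝕜)
          (by rw [hβ1]; norm_num) a
        rw [hβ1] at h2
        exact Real.rpow_le_rpow (by norm_num) h2 (by positivity)
    have h2 : sigma 𝕜 (qn 𝕜 p hp hp1.le) (unit p hp hp1.le) ({2} : Finset ℕ).card
        (tvs p hp hp1.le ((t : ℝ) : 𝕜)) ≤ (2 : ℝ) ^ (1 / p) := by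
      refine le_trans (csInf_le ?_ ⟨{0}, fun _ => 1 - ((t : ℝ) : 𝕜), by simp, rfl⟩) ?_
      · exact ⟨0, by rintro r ⟨B, a, _, rfl⟩; exact qn_nonneg _⟩
      · exact Real.rpow_le_rpow (G_nonneg _)
          (upper (hp := hp) (hp1 := hp1.le) ((t : ℝ) : 𝕜) hβ1.le) (by positivity)
    have h3 := (h1.trans h).trans h2
    have h4 : (2 : ℝ) ^ (1 / p) < (2 + 1 / 4 : ℝ) ^ (1 / p) :=
      Real.rpow_lt_rpow (by norm_num) (by norm_num) (by positivity)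
    exact absurd h3 (not_le.2 h4)

end Pool.Agent.Results.MP_b7f2f1_an.QuasiBanachCase
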